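import Pool.Agent.Q78.FE.Stm

/-!
Project FE (helper78), part C-BIG: the weight of a linked gadget of constant size.
-/

set_option autoImplicit false

namespace Q222.FE.BIG

open Finset H974 Pool.Agent.H160R2.CV Pool.Agent.H160R2.CV.Quad H362P Q78.FE

/-! ### straight paths -/

theorem reach_h {S : Set Edg} {a b y : ℤ} (hab : a ≤ b)
    (h : ∀ x, a ≤ x → x < b → ((x, y, true) : Edg) ∈ S) : Reach S (a, y) (b, y) := by
  obtain ⟨n, hn⟩ := Int.eq_ofNat_of_zero_le (sub_nonneg.mpr hab)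
  induction n generalizing b with
  | zero =>
    have : a = b := by push_cast at hn; omega
    rw [this]
    exact Reach.refl _ _
  | succ n ih =>
    have h1 := ih (b := b - 1) (by push_cast at hn; omega) (fun x hx hx2 => h x hx (by omega))
      (by push_cast at hn ⊢; omega)
    refine h1.trans (Adj.reach ⟨(b - 1, y, true), h _ (by push_cast at hn; omega) (by omega), ?_⟩)
    left
    simp

theorem reach_v {S : Set Edg} {c d x : ℤ} (hcd : c ≤ d)
    (h : ∀ y, c ≤ y → y < d → ((x, y, false) : Edg) ∈ S) : Reach S (x, c) (x, d) := by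
  obtain ⟨n, hn⟩ := Int.eq_ofNat_of_zero_le (sub_nonneg.mpr hcd)
  induction n generalizing d with
  | zero =>
    have : c = d := by push_cast at hn; omega
    rw [this]
    exact Reach.refl _ _
  | succ n ih =>
    have h1 := ih (d := d - 1) (by push_cast at hn; omega) (fun y hy hy2 => h y hy (by omega))
      (by push_cast at hn ⊢; omega)
    refine h1.trans (Adj.reach ⟨(x, d - 1, false), h _ (by push_cast at hn; omega) (by omega), ?_⟩)
    left
    simp

/-! ### the full configuration -/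

theorem LRc_full {R1 R2 : ℤ} {n : ℕ} (h1 : -R2 ≤ R1) (h2 : R1 ≤ R2) (h3 : R2 ≤ n) {c d : ℤ}
    (hcd : c ≤ d) (hc : -R2 ≤ c) (hd : d ≤ R2) : LRc (-R2) R2 c d (boxE n) := by
  refine ⟨c, c, ⟨le_rfl, hcd⟩, ⟨le_rfl, hcd⟩, reach_h (by omega) (fun x hx hx2 => ⟨?_, ?_⟩)⟩
  · rw [Finset.mem_coe]
    unfold boxE
    rw [mem_RE_true]
    omega
  · rw [Finset.mem_coe, mem_LRE_true]
    omega

theorem TBc_full {R2 : ℤ} {n : ℕ} (h3 : R2 ≤ n) (h0 : 0 ≤ R2) {a b : ℤ}
    (hab : a ≤ b) (ha : -R2 ≤ a) (hb : b ≤ R2) : TBc a b (-R2) R2 (boxE n) := by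
  refine ⟨a, a, ⟨le_rfl, hab⟩, ⟨le_rfl, hab⟩, reach_v (by omega) (fun y hy hy2 => ⟨?_, ?_⟩)⟩
  · rw [Finset.mem_coe]
    unfold boxE
    rw [mem_RE_false]
    omega
  · rw [Finset.mem_coe, mem_TBE_false]
    omega

theorem CA_full {z : Vtx} {R1 R2 n : ℕ} (h2 : R1 ≤ R2) (h3 : R2 ≤ n) :
    CA z R1 R2 (bo z n) := by
  unfold CA
  rw [trl_bo]
  refine ⟨⟨?_, ?_⟩, ?_, ?_⟩
  · exact LRc_full (R1 := R1) (by omega) (by omega) (by omega) (by omega) (by omega) (by omega)
  · exact LRc_full (R1 := R1) (by omega) (by omega) (by omega) (by omega) (by omega) (by omega)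
  · exact TBc_full (by omega) (by omega) (by omega) (by omega) (by omega)
  · exact TBc_full (by omega) (by omega) (by omega) (by omega) (by omega)

theorem Lk_full {z : Vtx} {u : ℕ} : Lk z u (bo z (90 * u)) := by
  refine ⟨CA_full (by omega) le_rfl, (z.1 + 2 * u, z.2), (z.1 + 90 * u, z.2), ?_, ?_, ?_⟩
  · unfold nv
    simp only [Prod.fst_sub, Prod.snd_sub]
    omega
  · unfold nv
    simp only [Prod.fst_sub, Prod.snd_sub]
    omega
  · refine reach_h (by omega) (fun x hx hx2 => ⟨?_, ?_⟩)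
    · rw [Finset.mem_coe]
      unfold bo
      rw [mem_RE_true]
      push_cast
      omega
    · rw [Finset.mem_coe, Finset.mem_sdiff]
      unfold bo
      rw [mem_RE_true, mem_RE_true]
      push_cast
      omega

theorem mem_bxz {z v : Vtx} {n : ℕ} : v ∈ bxz z n ↔
    (z.1 - n ≤ v.1 ∧ v.1 ≤ z.1 + n) ∧ (z.2 - n ≤ v.2 ∧ v.2 ≤ z.2 + n) := by
  unfold bxz
  rw [Finset.mem_product, Finset.mem_Icc, Finset.mem_Icc]

/-! ### radial paths and connections in the full box, possibly without the edges at the centre -/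

/-- the edges at `z` -/
def atz (z : Vtx) (e : Edg) : Prop := src e = z ∨ tgt e = z

theorem Rad_full {z : Vtx} {u : ℕ} {F : Finset Edg} (h : An z u ⊆ F) :
    Rad z u F (z.1 + 3 * u, z.2) := by
  refine ⟨?_, (z.1 + 9 * u, z.2), ?_, ?_⟩
  · unfold nv
    simp only [Prod.fst_sub, Prod.snd_sub]
    omega
  · unfold nv
    simp only [Prod.fst_sub, Prod.snd_sub]
    omega
  · refine reach_h (by omega) (fun x hx hx2 => ?_)
    have : ((x, z.2, true) : Edg) ∈ An z u := by
      unfold An bo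
      rw [Finset.mem_sdiff, mem_RE_true, mem_RE_true]
      push_cast
      omega
    exact ⟨by exact_mod_cast h this, by exact_mod_cast this⟩

theorem Hb_full {z : Vtx} {u : ℕ} (hu : 1 ≤ u) {F : Finset Edg} (hA : An z u ⊆ F)
    (h : ∀ e ∈ bo z (9 * u), ¬ atz z e → e ∈ F) {v : Vtx} (hv : v ∈ bxz z (9 * u)) (hvz : v ≠ z) :
    Hb z u F v := by
  obtain ⟨z1, z2⟩ := z
  obtain ⟨a, b⟩ := v
  rw [mem_bxz] at hv
  simp only at hv
  push_cast at hv
  have hne : a ≠ z1 ∨ b ≠ z2 := by
    by_contra hc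
    push Not at hc
    exact hvz (Prod.ext hc.1 hc.2)
  set S : Set Edg := ↑F ∩ ↑(bo (z1, z2) (9 * u)) with hS
  have memt : ∀ x y : ℤ, z1 - 9 * u ≤ x → x < z1 + 9 * u → z2 - 9 * u ≤ y → y ≤ z2 + 9 * u →
      (y ≠ z2 ∨ (x ≠ z1 ∧ x + 1 ≠ z1)) → ((x, y, true) : Edg) ∈ S := by
    intro x y g1 g2 g3 g4 g5
    have hm : ((x, y, true) : Edg) ∈ bo (z1, z2) (9 * u) := by
      unfold bo
      rw [mem_RE_true]
      push_cast
      omega
    refine ⟨?_, by exact_mod_cast hm⟩
    refine Finset.mem_coe.mpr (h _ hm ?_)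
    unfold atz
    rw [src_mk, tgt_true, Prod.mk.injEq, Prod.mk.injEq]
    omega
  have memf : ∀ x y : ℤ, z1 - 9 * u ≤ x → x ≤ z1 + 9 * u → z2 - 9 * u ≤ y → y < z2 + 9 * u →
      (x ≠ z1 ∨ (y ≠ z2 ∧ y + 1 ≠ z2)) → ((x, y, false) : Edg) ∈ S := by
    intro x y g1 g2 g3 g4 g5
    have hm : ((x, y, false) : Edg) ∈ bo (z1, z2) (9 * u) := by
      unfold bo
      rw [mem_RE_false]
      push_cast
      omega
    refine ⟨?_, by exact_mod_cast hm⟩
    refine Finset.mem_coe.mpr (h _ hm ?_)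
    unfold atz
    rw [src_mk, tgt_false, Prod.mk.injEq, Prod.mk.injEq]
    omega
  have key : ∀ a b : ℤ, (z1 - 9 * u ≤ a ∧ a ≤ z1 + 9 * u) → (z2 - 9 * u ≤ b ∧ b ≤ z2 + 9 * u) →
      (a ≠ z1 ∨ b ≠ z2) → Reach S (a, b) (z1 + 9 * u, z2 + 9 * u) := by
    intro a b ha hb hab
    rcases lt_trichotomy a z1 with hlt | heq | hgt
    · have r1 : Reach S (z1 - 9 * u, b) (a, b) :=
        reach_h (by omega) (fun x g1 g2 => memt x b (by omega) (by omega) (by omega) (by omega)
          (by omega))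
      have r2 : Reach S (z1 - 9 * u, b) (z1 - 9 * u, z2 + 9 * u) :=
        reach_v (by omega) (fun y g1 g2 => memf _ y (by omega) (by omega) (by omega) (by omega)
          (by omega))
      have r3 : Reach S (z1 - 9 * u, z2 + 9 * u) (z1 + 9 * u, z2 + 9 * u) :=
        reach_h (by omega) (fun x g1 g2 => memt x _ (by omega) (by omega) (by omega) (by omega)
          (by omega))
      exact r1.symm.trans (r2.trans r3)
    · rcases lt_trichotomy b z2 with hlt | heq2 | hgt
      · have r1 : Reach S (a, z2 - 9 * u) (a, b) :=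
          reach_v (by omega) (fun y g1 g2 => memf _ y (by omega) (by omega) (by omega) (by omega)
            (by omega))
        have r2 : Reach S (a, z2 - 9 * u) (z1 + 9 * u, z2 - 9 * u) :=
          reach_h (by omega) (fun x g1 g2 => memt x _ (by omega) (by omega) (by omega) (by omega)
            (by omega))
        have r3 : Reach S (z1 + 9 * u, z2 - 9 * u) (z1 + 9 * u, z2 + 9 * u) :=
          reach_v (by omega) (fun y g1 g2 => memf _ y (by omega) (by omega) (by omega) (by omega)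
            (by omega))
        exact r1.symm.trans (r2.trans r3)
      · omega
      · have r1 : Reach S (a, b) (a, z2 + 9 * u) :=
          reach_v (by omega) (fun y g1 g2 => memf _ y (by omega) (by omega) (by omega) (by omega)
            (by omega))
        have r2 : Reach S (a, z2 + 9 * u) (z1 + 9 * u, z2 + 9 * u) :=
          reach_h (by omega) (fun x g1 g2 => memt x _ (by omega) (by omega) (by omega) (by omega)
            (by omega))
        exact r1.trans r2
    · have r1 : Reach S (a, b) (z1 + 9 * u, b) :=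
        reach_h (by omega) (fun x g1 g2 => memt x b (by omega) (by omega) (by omega) (by omega)
          (by omega))
      have r2 : Reach S (z1 + 9 * u, b) (z1 + 9 * u, z2 + 9 * u) :=
        reach_v (by omega) (fun y g1 g2 => memf _ y (by omega) (by omega) (by omega) (by omega)
          (by omega))
      exact r1.trans r2
  refine ⟨_, Rad_full hA, ?_⟩
  show Reach S (z1 + 3 * u, z2) (a, b)
  exact (key _ _ (by omega) (by omega) (by omega)).trans (key a b (by omega) (by omega) hne).symm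

theorem Hb_centre {z : Vtx} {u : ℕ} (hu : 1 ≤ u) {F : Finset Edg} (h : bo z (9 * u) ⊆ F) :
    Hb z u F z := by
  have hA : An z u ⊆ F := Finset.Subset.trans Finset.sdiff_subset h
  obtain ⟨w, h1, h2⟩ := Hb_full hu hA (fun e he _ => h he) (v := (z.1 + 1, z.2))
    (by rw [mem_bxz]; push_cast; omega)
    (by intro hc; have := congrArg Prod.fst hc; simp at this)
  refine ⟨w, h1, h2.trans ?_⟩
  refine Adj.reach ⟨(z.1, z.2, true), ?_, Or.inr (by simp)⟩
  have : ((z.1, z.2, true) : Edg) ∈ bo z (9 * u) := by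
    unfold bo
    rw [mem_RE_true]
    push_cast
    omega
  exact ⟨by exact_mod_cast h this, by exact_mod_cast this⟩

theorem reach_iso {S : Set Edg} {z v : Vtx} (h : ∀ e ∈ S, ¬ atz z e) (hr : Reach S z v) :
    v = z := by
  rcases Relation.ReflTransGen.cases_head hr with h1 | ⟨w, ⟨e, he, hc⟩, -⟩
  · exact h1.symm
  · exfalso
    apply h e he
    rcases hc with ⟨h1, -⟩ | ⟨-, h1⟩
    · exact Or.inl h1
    · exact Or.inr h1

theorem not_Hb {z : Vtx} {u : ℕ} (hu : 1 ≤ u) {F : Finset Edg} (h : ∀ e ∈ F, ¬ atz z e) :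
    ¬ Hb z u F z := by
  rintro ⟨w, ⟨-, v, hv, hr1⟩, hr2⟩
  have hw : w = z := reach_iso (fun e he => h e (Finset.mem_coe.mp he.1)) hr2.symm
  rw [hw] at hr1
  have hv2 : v = z := reach_iso (fun e he => h e (Finset.mem_coe.mp he.1)) hr1
  rw [hv2] at hv
  unfold nv at hv
  simp at hv
  omega

/-! ### weights of configurations -/

section weights

variable {E : Type} [DecidableEq E]

/-- the weight of a configuration -/
noncomputable def W (p : E → ℝ) (B G : Finset E) : ℝ := (∏ e ∈ G, p e) * ∏ e ∈ B \ G, (1 - p e)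

theorem W_nonneg {p : E → ℝ} (hp : Ok p) (B G : Finset E) : 0 ≤ W p B G :=
  mul_nonneg (Finset.prod_nonneg (fun e _ => (hp e).1))
    (Finset.prod_nonneg (fun e _ => by linarith [(hp e).2]))

theorem W_sum (p : E → ℝ) (B : Finset E) : ∑ G ∈ B.powerset, W p B G = 1 := by
  have h := Ex_const p B 1
  unfold Ex at h
  simpa [W] using h

theorem W_low {p : E → ℝ} (h : ∀ e, 1 / 4 ≤ p e ∧ p e ≤ 1 / 2) {B G : Finset E} (hG : G ⊆ B) :
    (1 / 4 : ℝ) ^ B.card ≤ W p B G := by
  have e : B.card = G.card + (B \ G).card := by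
    rw [add_comm, Finset.card_sdiff_add_card_eq_card hG]
  rw [e, pow_add]
  unfold W
  apply mul_le_mul
  · rw [← Finset.prod_const]
    exact Finset.prod_le_prod (fun _ _ => by norm_num) (fun e _ => (h e).1)
  · rw [← Finset.prod_const]
    exact Finset.prod_le_prod (fun _ _ => by norm_num) (fun e _ => by linarith [(h e).2])
  · positivity
  · exact Finset.prod_nonneg (fun e _ => by linarith [(h e).1])

theorem CEx_two {p : E → ℝ} (hp : Ok p) {B : Finset E} {f : Finset E → ℂ}
    (hf : ∀ G, G ⊆ B → ‖f G‖ ≤ 1) {G1 G2 : Finset E} (h1 : G1 ⊆ B) (h2 : G2 ⊆ B)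
    (hne : G2 ≠ G1) : ‖CEx p B f‖ ≤
      1 - W p B G1 - W p B G2 + ‖(W p B G1 : ℂ) * f G1 + (W p B G2 : ℂ) * f G2‖ := by
  have m1 : G1 ∈ B.powerset := Finset.mem_powerset.mpr h1
  have m2 : G2 ∈ B.powerset.erase G1 :=
    Finset.mem_erase.mpr ⟨hne, Finset.mem_powerset.mpr h2⟩
  have e0 : CEx p B f = ∑ G ∈ B.powerset, (W p B G : ℂ) * f G := rfl
  rw [e0, ← Finset.add_sum_erase _ _ m1, ← Finset.add_sum_erase _ _ m2, ← add_assoc]
  refine (norm_add_le _ _).trans ?_
  have s1 := W_sum p B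
  rw [← Finset.add_sum_erase _ _ m1, ← Finset.add_sum_erase _ _ m2] at s1
  have s2 : ‖∑ G ∈ (B.powerset.erase G1).erase G2, (W p B G : ℂ) * f G‖ ≤
      ∑ G ∈ (B.powerset.erase G1).erase G2, W p B G := by
    refine (norm_sum_le _ _).trans (Finset.sum_le_sum (fun G hG => ?_))
    have hGB : G ⊆ B := Finset.mem_powerset.mp
      (Finset.mem_of_mem_erase (Finset.mem_of_mem_erase hG))
    rw [norm_mul, Complex.norm_real, Real.norm_of_nonneg (W_nonneg hp _ _)]
    calc W p B G * ‖f G‖ ≤ W p B G * 1 :=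
          mul_le_mul_of_nonneg_left (hf G hGB) (W_nonneg hp _ _)
      _ = W p B G := mul_one _
  linarith

theorem CEx_le_one {p : E → ℝ} (hp : Ok p) {B : Finset E} {f : Finset E → ℂ}
    (hf : ∀ G, G ⊆ B → ‖f G‖ ≤ 1) : ‖CEx p B f‖ ≤ 1 := by
  have e0 : CEx p B f = ∑ G ∈ B.powerset, (W p B G : ℂ) * f G := rfl
  rw [e0, ← W_sum p B]
  refine (norm_sum_le _ _).trans (Finset.sum_le_sum (fun G hG => ?_))
  rw [norm_mul, Complex.norm_real, Real.norm_of_nonneg (W_nonneg hp _ _)]
  calc W p B G * ‖f G‖ ≤ W p B G * 1 :=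
        mul_le_mul_of_nonneg_left (hf G (Finset.mem_powerset.mp hG)) (W_nonneg hp _ _)
    _ = W p B G := mul_one _

theorem Ex_single {p : E → ℝ} (hp : Ok p) {U : Finset E} {f : Finset E → ℝ}
    (hf : ∀ G, G ⊆ U → f G ≤ 1) {G0 : Finset E} (h0 : G0 ⊆ U) :
    Ex p U f ≤ 1 - W p U G0 * (1 - f G0) := by
  have h1 : Ex p U (fun G => 1 - f G) = 1 - Ex p U f := by
    rw [Ex_sub, Ex_const]
  have h2 : W p U G0 * (1 - f G0) ≤ Ex p U (fun G => 1 - f G) := by
    unfold Ex
    exact Finset.single_le_sum (f := fun G => W p U G * (1 - f G))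
      (fun G hG => mul_nonneg (W_nonneg hp _ _) (by linarith [hf G (Finset.mem_powerset.mp hG)]))
      (Finset.mem_powerset.mpr h0)
  linarith

end weights

theorem norm_ei (t : ℝ) : ‖ei t‖ = 1 := by
  unfold ei
  exact Complex.norm_exp_ofReal_mul_I t

theorem ei_add (s t : ℝ) : ei (s + t) = ei s * ei t := by
  unfold ei
  rw [← Complex.exp_add]
  congr 1
  push_cast
  ring

/-- two unit vectors at angle `θ` -/
theorem two_ei {w1 w2 s t : ℝ} (h1 : 0 ≤ w1) (h2 : 0 ≤ w2) (h : w1 + w2 ≤ 1) {θ : ℝ}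
    (hst : s = t + θ) :
    ‖(w1 : ℂ) * ei s + (w2 : ℂ) * ei t‖ ≤ w1 + w2 - w1 * w2 * (1 - Real.cos θ) := by
  have e1 : (w1 : ℂ) * ei s + (w2 : ℂ) * ei t = ei t * ((w1 : ℂ) * ei θ + (w2 : ℂ)) := by
    rw [hst, ei_add]
    ring
  rw [e1, norm_mul, norm_ei, one_mul]
  set q := w1 * w2 * (1 - Real.cos θ) with hq
  have hc1 : Real.cos θ ≤ 1 := Real.cos_le_one θ
  have hc2 : -1 ≤ Real.cos θ := Real.neg_one_le_cos θ
  have hq0 : 0 ≤ q := mul_nonneg (mul_nonneg h1 h2) (by linarith)
  have hq1 : q ≤ w1 + w2 := by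
    have h3 : q ≤ w1 * w2 * 2 := mul_le_mul_of_nonneg_left (by linarith) (mul_nonneg h1 h2)
    nlinarith [sq_nonneg (w1 - w2)]
  have e2 : ‖(w1 : ℂ) * ei θ + (w2 : ℂ)‖ ^ 2 = (w1 + w2) ^ 2 - 2 * q := by
    have e3 : (w1 : ℂ) * ei θ + (w2 : ℂ) =
        ((w1 * Real.cos θ + w2 : ℝ) : ℂ) + ((w1 * Real.sin θ : ℝ) : ℂ) * Complex.I := by
      unfold ei
      rw [Complex.exp_mul_I, ← Complex.ofReal_cos, ← Complex.ofReal_sin]
      push_cast
      ring
    rw [e3, Complex.sq_norm, Complex.normSq_add_mul_I]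
    have := Real.sin_sq_add_cos_sq θ
    rw [hq]
    linear_combination w1 ^ 2 * this
  have h4 : ‖(w1 : ℂ) * ei θ + (w2 : ℂ)‖ ^ 2 ≤ (w1 + w2 - q) ^ 2 := by
    rw [e2]
    nlinarith [mul_nonneg hq0 (by linarith : 0 ≤ 1 - (w1 + w2)), sq_nonneg q]
  exact le_of_sq_le_sq h4 (by linarith)

theorem card_bo_le (z : Vtx) (m : ℕ) : (bo z m).card ≤ (2 * m + 1) * ((2 * m + 1) * 2) := by
  unfold bo RE
  refine (Finset.card_filter_le _ _).trans ?_
  rw [Finset.card_product, Finset.card_product, Int.card_Icc, Int.card_Icc, Finset.card_univ,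
    Fintype.card_bool]
  apply le_of_eq
  congr 1
  · omega
  · congr 1
    omega

theorem t_BIG : S_BIG := by
  intro u θ0 hu hθ0
  by_cases hθπ : Real.pi < θ0
  · refine ⟨1, one_pos, le_rfl, fun p θ _ _ h1 h2 => ?_⟩
    linarith
  push Not at hθπ
  set N0 := (2 * (90 * u) + 1) * ((2 * (90 * u) + 1) * 2) with hN0
  set ε : ℝ := (1 / 4) ^ N0 with hε
  have hε0 : 0 < ε := by positivity
  have hε1 : ε ≤ 1 / 4 := by
    rw [hε]
    have : 1 ≤ N0 := Nat.succ_le_of_lt (by rw [hN0]; positivity)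
    calc (1 / 4 : ℝ) ^ N0 ≤ (1 / 4 : ℝ) ^ 1 :=
          pow_le_pow_of_le_one (by norm_num) (by norm_num) this
      _ = 1 / 4 := pow_one _
  have hcos : Real.cos θ0 < 1 := by
    have h1 := Real.cos_lt_cos_of_nonneg_of_le_pi (x := 0) (y := θ0) le_rfl hθπ hθ0
    rwa [Real.cos_zero] at h1
  have hcos2 : -1 ≤ Real.cos θ0 := Real.neg_one_le_cos θ0
  refine ⟨ε * (ε * ε * (1 - Real.cos θ0)), by
    have : 0 < 1 - Real.cos θ0 := by linarith
    positivity, ?_, ?_⟩
  · have h2 : ε * ε * (1 - Real.cos θ0) ≤ 1 / 4 * (1 / 4) * 2 := by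
      apply mul_le_mul (mul_le_mul hε1 hε1 hε0.le (by norm_num)) (by linarith) (by linarith)
        (by norm_num)
    have h3 : 0 ≤ ε * ε * (1 - Real.cos θ0) := by
      have : 0 < 1 - Real.cos θ0 := by linarith
      positivity
    nlinarith
  intro p θ hp1 hp2 hθ1 hθ2 z
  have hok : Ok (fun _ : Edg => p) := okq (by linarith) (by linarith)
  set U := bo z (90 * u) with hU
  set B := Bl z u with hB
  have hu1 : 1 ≤ u := by omega
  have hB9 : B ⊆ bo z (9 * u) := by
    rw [hB]
    unfold Bl bo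
    apply RE_subset <;> push_cast <;> omega
  have h9U : bo z (9 * u) ⊆ U := by
    rw [hU]
    unfold bo
    apply RE_subset <;> push_cast <;> omega
  have hBU : B ⊆ U := Finset.Subset.trans hB9 h9U
  have hcU : U.card ≤ N0 := card_bo_le z (90 * u)
  have hcB : B.card ≤ N0 := (Finset.card_le_card hBU).trans hcU
  have hle1 : ∀ F : Finset Edg, Q78.FE.WW p θ z u F ≤ 1 := by
    intro F
    unfold Q78.FE.WW
    split_ifs
    · exact CEx_le_one hok (fun G _ => (norm_ei _).le)
    · exact le_rfl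
  -- the weight of the full configuration
  classical
  set G1 : Finset Edg := B.filter (fun e => ¬ atz z e) with hG1
  have hG1B : G1 ⊆ B := Finset.filter_subset _ _
  have hne : G1 ≠ B := by
    intro hc
    have hm : ((z.1, z.2, true) : Edg) ∈ B := by
      rw [hB]
      unfold Bl bo
      rw [mem_RE_true]
      push_cast
      omega
    rw [← hc, hG1, Finset.mem_filter] at hm
    exact hm.2 (Or.inl rfl)
  have hz : z ∈ bxz z (9 * u) := by
    rw [mem_bxz]
    omega
  have hF1 : (U \ B) ∪ B = U := Finset.sdiff_union_of_subset hBU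
  have y1 : Yz z u ((U \ B) ∪ B) = 1 + ∑ v ∈ (bxz z (9 * u)).erase z, (1 : ℝ) := by
    unfold Yz
    rw [hF1, ← Finset.add_sum_erase _ _ hz]
    congr 1
    · exact ind_of (Hb_centre hu1 h9U)
    · refine Finset.sum_congr rfl (fun v hv => ind_of ?_)
      exact Hb_full hu1 (Finset.Subset.trans Finset.sdiff_subset h9U) (fun e he _ => h9U he)
        (Finset.mem_of_mem_erase hv) (Finset.ne_of_mem_erase hv)
  have y2 : Yz z u ((U \ B) ∪ G1) = ∑ v ∈ (bxz z (9 * u)).erase z, (1 : ℝ) := by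
    unfold Yz
    rw [← Finset.add_sum_erase _ _ hz]
    have h0 : ind (Hb z u ((U \ B) ∪ G1) z) = 0 := by
      apply ind_not_of
      apply not_Hb hu1
      intro e he hat
      rw [Finset.mem_union] at he
      rcases he with he | he
      · rw [Finset.mem_sdiff] at he
        apply he.2
        have hs : atz z e := hat
        rw [hB]
        unfold Bl bo
        obtain ⟨x, y, _ | _⟩ := e
        · rw [mem_RE_false]
          unfold atz at hs
          rw [src_mk, tgt_false, Prod.ext_iff, Prod.ext_iff] at hs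
          simp only at hs
          push_cast
          omega
        · rw [mem_RE_true]
          unfold atz at hs
          rw [src_mk, tgt_true, Prod.ext_iff, Prod.ext_iff] at hs
          simp only at hs
          push_cast
          omega
      · rw [hG1, Finset.mem_filter] at he
        exact he.2 hat
    rw [h0, zero_add]
    refine Finset.sum_congr rfl (fun v hv => ind_of ?_)
    refine Hb_full hu1 ?_ ?_ (Finset.mem_of_mem_erase hv) (Finset.ne_of_mem_erase hv)
    · intro e he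
      unfold An at he
      rw [Finset.mem_sdiff] at he
      exact Finset.mem_union_left _ (Finset.mem_sdiff.mpr ⟨h9U he.1, he.2⟩)
    · intro e he hat
      by_cases hb : e ∈ B
      · exact Finset.mem_union_right _ (by rw [hG1, Finset.mem_filter]; exact ⟨hb, hat⟩)
      · exact Finset.mem_union_left _ (Finset.mem_sdiff.mpr ⟨h9U he, hb⟩)
  have hwt : wt p θ z u U ≤ 1 - ε * ε * (1 - Real.cos θ0) := by
    unfold wt
    have h1 := CEx_two hok (B := B) (f := fun G => ei (θ * Yz z u ((U \ B) ∪ G)))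
      (fun G _ => (norm_ei _).le) (Finset.Subset.refl B) hG1B hne
    rw [y1, y2] at h1
    set w1 := W (fun _ : Edg => p) B B with hw1
    set w2 := W (fun _ : Edg => p) B G1 with hw2
    have hw1' : ε ≤ w1 := by
      refine le_trans ?_ (W_low (fun _ => ⟨hp1, hp2⟩) (Finset.Subset.refl B))
      exact pow_le_pow_of_le_one (by norm_num) (by norm_num) hcB
    have hw2' : ε ≤ w2 := by
      refine le_trans ?_ (W_low (fun _ => ⟨hp1, hp2⟩) hG1B)
      exact pow_le_pow_of_le_one (by norm_num) (by norm_num) hcB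
    have hsum : w1 + w2 ≤ 1 := by
      have m1 : B ∈ B.powerset := Finset.mem_powerset.mpr (Finset.Subset.refl B)
      have m2 : G1 ∈ B.powerset.erase B :=
        Finset.mem_erase.mpr ⟨hne, Finset.mem_powerset.mpr hG1B⟩
      have s1 := W_sum (fun _ : Edg => p) B
      rw [← Finset.add_sum_erase _ _ m1, ← Finset.add_sum_erase _ _ m2] at s1
      have s2 : 0 ≤ ∑ G ∈ (B.powerset.erase B).erase G1, W (fun _ : Edg => p) B G :=
        Finset.sum_nonneg (fun G _ => W_nonneg hok _ _)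
      linarith
    have h2 := two_ei (w1 := w1) (w2 := w2)
      (s := θ * (1 + ∑ v ∈ (bxz z (9 * u)).erase z, (1 : ℝ)))
      (t := θ * (∑ v ∈ (bxz z (9 * u)).erase z, (1 : ℝ))) (by linarith) (by linarith) hsum
      (θ := θ) (by ring)
    have h3 : Real.cos θ ≤ Real.cos θ0 :=
      Real.cos_le_cos_of_nonneg_of_le_pi hθ0.le hθ2 hθ1
    have h4 : ε * ε * (1 - Real.cos θ0) ≤ w1 * w2 * (1 - Real.cos θ) := by
      apply mul_le_mul (mul_le_mul hw1' hw2' hε0.le (by linarith)) (by linarith) (by linarith)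
        (mul_nonneg (by linarith) (by linarith))
    linarith
  have hWW : Q78.FE.WW p θ z u U ≤ 1 - ε * ε * (1 - Real.cos θ0) := by
    unfold Q78.FE.WW
    rw [if_pos ⟨CA_full (by omega) (by omega), Lk_full⟩]
    exact hwt
  have h5 := Ex_single hok (U := U) (f := Q78.FE.WW p θ z u) (fun G _ => hle1 G) (Finset.Subset.refl U)
  have h6 : ε ≤ W (fun _ : Edg => p) U U := by
    refine le_trans ?_ (W_low (fun _ => ⟨hp1, hp2⟩) (Finset.Subset.refl U))
    exact pow_le_pow_of_le_one (by norm_num) (by norm_num) hcU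
  have h7 : 0 ≤ ε * ε * (1 - Real.cos θ0) := by
    have : 0 < 1 - Real.cos θ0 := by linarith
    positivity
  have h8 : ε * (ε * ε * (1 - Real.cos θ0)) ≤ W (fun _ : Edg => p) U U * (1 - Q78.FE.WW p θ z u U) :=
    mul_le_mul h6 (by linarith) h7 (hε0.le.trans h6)
  linarith

end Q222.FE.BIG
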