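import Pool.Agent.Q78.FE.Stm

/-!
Project FE (helper78), part F-DIFF: bounds for the law at one scale and its differences.
-/

set_option autoImplicit false

namespace Q222.FE.DIFF

open Finset H974 Pool.Agent.H160R2.CV Pool.Agent.H160R2.CV.Quad H362P Q78.FE

theorem Arm_of_fl {R n : ℕ} (h : n ≤ R) {i : Fin 4} {F : Finset Edg} (hF : fl R (0, 0) i F) :
    Arm n F := by
  obtain ⟨v, hv, hr⟩ := hF
  have h' : (n : ℤ) ≤ R := by exact_mod_cast h
  have hv' : v.1 ≤ -(n : ℤ) ∨ (n : ℤ) ≤ v.1 ∨ v.2 ≤ -(n : ℤ) ∨ (n : ℤ) ≤ v.2 := by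
    fin_cases i
    · have h1 : v.1 = (R : ℤ) := hv
      omega
    · have h1 : v.1 = -(R : ℤ) := hv
      omega
    · have h1 : v.2 = (R : ℤ) := hv
      omega
    · have h1 : v.2 = -(R : ℤ) := hv
      omega
  obtain ⟨w, k1, k2, k3⟩ := first_exit (G := ↑F ∩ ↑(boxE R)) (a := -n) (b := n) (c := -n) (d := n)
    (u := (0, 0)) (v := v) (by unfold inR; simp) hr hv'
  refine ⟨w, ⟨k1, k2⟩, k3.mono ?_⟩
  rintro e ⟨⟨k4, -⟩, k5⟩
  exact ⟨k4, k5⟩

theorem DIFF_of (har : ArSharp) (hINV : S_INV) (hSYM : S_SYM) (hFOUR : S_FOUR) : S_DIFF := by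
  intro k0 hk0 κ a hκ ha
  obtain ⟨C1, hC1, hfour⟩ := hFOUR k0 hk0 κ a hκ ha
  obtain ⟨c2, C2, hc2, hC2, har⟩ := har
  refine ⟨4 * (C1 * (C2 * 2)), by positivity, ?_⟩
  intro p A s n k hs hNW hn
  have hk3 := hk0.1
  have hp0 : 0 ≤ p := by linarith [hNW.lo]
  have hp1 : p ≤ 1 / 2 := hNW.hi
  have hok : Ok (fun _ : Edg => p) := okq hp0 (by linarith)
  have hs60 : 60 ≤ s := by
    rw [hs]
    have h1 : 1 ≤ 2 ^ A := Nat.one_le_two_pow
    calc 60 = 20 * 3 * 1 := by norm_num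
      _ ≤ 20 * k0 * 2 ^ A := Nat.mul_le_mul (Nat.mul_le_mul_left 20 hk3) h1
  have hs0 : (0 : ℝ) < s := by
    have : 0 < s := by omega
    exact_mod_cast this
  have hs1 : (1 : ℝ) ≤ s := by
    have : 1 ≤ s := by omega
    exact_mod_cast this
  set q : Finset Edg → ℝ := fun F => ind (Arm (s - 1) F) with hq
  set g : Finset Edg → ℝ := fun F => q F * gg (8 * s) (0, 0) F with hg
  have hgg : ∀ F, g F = gg (8 * s) (0, 0) F := by
    intro F
    rw [hg, hq]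
    simp only
    by_cases h : fl (8 * s) (0, 0) 0 F
    · rw [ind_of (Arm_of_fl (by omega) h), one_mul]
    · unfold gg
      rw [ind_not_of h, zero_div, mul_zero]
  have hqloc : ∀ F, q F = q (F \ LRE s (5 * s) (-(9 * (s : ℤ))) (9 * s)) := by
    intro F
    rw [hq]
    apply ind_congr
    unfold Arm
    have e : (↑(F \ LRE s (5 * s) (-(9 * (s : ℤ))) (9 * s)) : Set Edg) ∩ ↑(boxE (s - 1)) =
        ↑F ∩ ↑(boxE (s - 1)) := by
      ext e
      rw [Finset.coe_sdiff]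
      constructor
      · rintro ⟨⟨h1, -⟩, h2⟩
        exact ⟨h1, h2⟩
      · rintro ⟨h1, h2⟩
        refine ⟨⟨h1, ?_⟩, h2⟩
        intro h3
        rw [Finset.mem_coe] at h2 h3
        unfold boxE at h2
        obtain ⟨x, y, _ | _⟩ := e
        · rw [mem_RE_false] at h2
          rw [mem_LRE_false] at h3
          omega
        · rw [mem_RE_true] at h2
          rw [mem_LRE_true] at h3
          omega
    rw [e]
  have hq0 : ∀ F, 0 ≤ q F := fun F => ind_nonneg _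
  have hExq : Ex (fun _ => p) (boxE n) q ≤ C2 * 2 * (s : ℝ) ^ (-(5 / 48 : ℝ)) := by
    have h1 : Ex (fun _ => p) (boxE n) q = arm p (s - 1) :=
      pr_Arm p (boxE_mono (by omega))
    rw [h1]
    have h2 : arm p (s - 1) ≤ ar (s - 1) := arm_mono_param hp0 hp1 (by norm_num) _
    refine h2.trans ((har (s - 1) (by omega)).2.trans ?_)
    rw [mul_assoc]
    apply mul_le_mul_of_nonneg_left _ hC2.le
    have h3 : (s : ℝ) / 2 ≤ ((s - 1 : ℕ) : ℝ) := by
      rw [Nat.cast_sub (by omega)]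
      push_cast
      have : (60 : ℝ) ≤ s := by exact_mod_cast hs60
      linarith
    have h4 : ((s - 1 : ℕ) : ℝ) ^ (-(5 / 48 : ℝ)) ≤ ((s : ℝ) / 2) ^ (-(5 / 48 : ℝ)) :=
      Real.rpow_le_rpow_of_nonpos (by positivity) h3 (by norm_num)
    refine h4.trans ?_
    rw [Real.div_rpow hs0.le (by norm_num), Real.rpow_neg (by norm_num : (0 : ℝ) ≤ 2), div_inv_eq_mul,
      mul_comm]
    apply mul_le_mul_of_nonneg_right _ (by positivity)
    calc (2 : ℝ) ^ (5 / 48 : ℝ) ≤ 2 ^ (1 : ℝ) :=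
          Real.rpow_le_rpow_of_exponent_le (by norm_num) (by norm_num)
      _ = 2 := Real.rpow_one 2
  have hExq0 : 0 ≤ Ex (fun _ => p) (boxE n) q := Ex_nonneg hok (fun F _ => hq0 F)
  set M : ℝ := (s : ℝ) ^ (91 / 48 : ℝ) with hM
  have hM1 : 1 ≤ M := Real.one_le_rpow hs1 (by norm_num)
  have hM0 : 0 < M := by linarith
  set AA : ℝ := C1 * Ex (fun _ => p) (boxE n) q with hAA
  have hAA0 : 0 ≤ AA := mul_nonneg hC1.le hExq0
  have hAA1 : AA ≤ C1 * (C2 * 2) * (s : ℝ) ^ (-(5 / 48 : ℝ)) := by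
    rw [hAA, mul_assoc]
    exact mul_le_mul_of_nonneg_left hExq hC1.le
  have hfour' : ∀ θ : ℝ, |θ| ≤ Real.pi →
      ‖CEx (fun _ => p) (boxE n) (fun F => (g F : ℂ) * ei (θ * (Sz n (0, 0) F : ℝ)))‖ ≤
        AA / (1 + |θ| * M) ^ 6 := by
    intro θ hθ
    exact hfour p A s n (0, 0) hs hNW hn (by show (0 : ℤ) < s; omega) q hq0 hqloc θ hθ
  have hinv := hINV (fun _ : Edg => p) hok (boxE n) g (Sz n (0, 0)) AA M hAA0 hM1 hfour' k
  have hHH : ∀ j : ℕ, HH p n s j =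
      4 * Ex (fun _ => p) (boxE n) (fun F => g F * ind (Sz n (0, 0) F = j)) := by
    intro j
    have h1 := hSYM p n (8 * s) j (by omega)
    unfold HH
    rw [h1]
    congr 1
    apply Ex_congr
    intro F _
    rw [hgg]
  obtain ⟨i1, i2, i3⟩ := hinv
  have p1 : ∀ (t : ℝ) (x : ℝ), (s : ℝ) ^ (-(5 / 48 : ℝ)) / t = (s : ℝ) ^ x →
      0 < t → AA / t ≤ C1 * (C2 * 2) * (s : ℝ) ^ x := by
    intro t x hx ht
    rw [← hx, ← mul_div_assoc]
    exact div_le_div_of_nonneg_right hAA1 ht.le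
  have q1 := p1 M (-2) (by
    rw [hM, div_eq_mul_inv, ← Real.rpow_neg hs0.le, ← Real.rpow_add hs0]; norm_num) hM0
  have q2 := p1 (M ^ 2) (-(187 / 48)) (by
    rw [hM, div_eq_mul_inv, ← Real.rpow_natCast, ← Real.rpow_mul hs0.le, ← Real.rpow_neg hs0.le,
      ← Real.rpow_add hs0]; norm_num) (by positivity)
  have q3 := p1 (M ^ 3) (-(139 / 24)) (by
    rw [hM, div_eq_mul_inv, ← Real.rpow_natCast, ← Real.rpow_mul hs0.le, ← Real.rpow_neg hs0.le,
      ← Real.rpow_add hs0]; norm_num) (by positivity)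
  refine ⟨?_, ?_, ?_⟩
  · rw [hHH]
    have h1 := (le_abs_self _).trans (i1.trans q1)
    linarith
  · rw [hHH, hHH, ← mul_sub, abs_mul, abs_of_pos (by norm_num : (0 : ℝ) < 4)]
    have h1 := i2.trans q2
    linarith
  · rw [hHH, hHH, hHH]
    have e : ∀ x y z : ℝ, 4 * x - 2 * (4 * y) + 4 * z = 4 * (x - 2 * y + z) := by intros; ring
    rw [e, abs_mul, abs_of_pos (by norm_num : (0 : ℝ) < 4)]
    have h1 := i3.trans q3
    linarith

end Q222.FE.DIFF
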