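import Pool.Agent.Q78.FE.Stm

/-!
Project FE (helper78), part C-YEX: the mean mass of a gadget, from the sharp one-arm estimate.
-/

set_option autoImplicit false

namespace Q222.FE

open Finset H974 Pool.Agent.H160R2.CV Pool.Agent.H160R2.CV.Quad H362P Q78.FE

theorem nv_tri (a b c : Vtx) : nv (a - c) ≤ nv (a - b) + nv (b - c) := by
  unfold nv
  simp only [Prod.fst_sub, Prod.snd_sub]
  omega

theorem nv_comm' (a b : Vtx) : nv (a - b) = nv (b - a) := by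
  unfold nv
  simp only [Prod.fst_sub, Prod.snd_sub]
  omega

theorem far_of_Hb {z : Vtx} {u : ℕ} {F : Finset Edg} {v : Vtx} (h : Hb z u F v) :
    Far v (3 * u) F := by
  obtain ⟨w, ⟨hw, v', hv', hr1⟩, hr2⟩ := h
  have r1 : Reach (↑F) v w := (hr2.mono Set.inter_subset_left).symm
  have r2 : Reach (↑F) v v' := r1.trans (hr1.mono Set.inter_subset_left)
  by_cases hc : 3 * u ≤ nv (w - v)
  · exact ⟨w, hc, r1⟩
  · refine ⟨v', ?_, r2⟩
    have h1 := nv_tri v' w z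
    have h2 := nv_tri v' v w
    have h3 := nv_comm' v w
    omega

theorem far_pr {p : ℝ} (h0 : 0 ≤ p) (h1 : p ≤ 1 / 2) (S : Finset Edg) (v : Vtx) (r : ℕ) :
    Pr (fun _ => p) S (Far v r) ≤ ar r := by
  refine le_trans ?_ (far_le S v r)
  exact Pr_mono_param (okq h0 (by linarith)) Quad.okP (fun _ => h1) (fun F G h _ hF => Far.mono_F h hF)

theorem card_bxz (z : Vtx) (n : ℕ) : (bxz z n).card = (2 * n + 1) ^ 2 := by
  unfold bxz
  rw [Finset.card_product, Int.card_Icc, Int.card_Icc, sq]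
  congr 1 <;> omega

theorem YEX_of (h : ArSharp) : S_YEX := by
  obtain ⟨c, C, hc, hC, har⟩ := h
  refine ⟨361 * C, by positivity, fun p h0 h1 u hu z S => ?_⟩
  have hu0 : (0 : ℝ) < u := by exact_mod_cast hu
  have hu1 : (1 : ℝ) ≤ u := by exact_mod_cast hu
  have s1 : Ex (fun _ => p) S (Yz z u) =
      ∑ v ∈ bxz z (9 * u), Pr (fun _ => p) S (fun F => Hb z u F v) := by
    unfold Pr
    rw [← Ex_sum]
    rfl
  have s2 : ∀ v ∈ bxz z (9 * u), Pr (fun _ => p) S (fun F => Hb z u F v) ≤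
      C * (u : ℝ) ^ (-(5 / 48 : ℝ)) := by
    intro v _
    refine (Pr_mono (okq h0 (by linarith)) (fun F _ hF => far_of_Hb hF)).trans ?_
    refine (far_pr h0 h1 S v (3 * u)).trans ?_
    refine (har (3 * u) (by omega)).2.trans ?_
    apply mul_le_mul_of_nonneg_left _ hC.le
    refine Real.rpow_le_rpow_of_nonpos hu0 ?_ (by norm_num)
    push_cast
    linarith
  rw [s1]
  refine (Finset.sum_le_sum s2).trans ?_
  rw [Finset.sum_const, card_bxz, nsmul_eq_mul]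
  push_cast
  have e1 : (u : ℝ) ^ (91 / 48 : ℝ) = (u : ℝ) ^ 2 * (u : ℝ) ^ (-(5 / 48 : ℝ)) := by
    rw [← Real.rpow_natCast (u : ℝ) 2, ← Real.rpow_add hu0]
    norm_num
  rw [e1]
  have h2 : (2 * (9 * (u : ℝ)) + 1) ^ 2 ≤ 361 * (u : ℝ) ^ 2 := by nlinarith
  have h3 : 0 ≤ C * (u : ℝ) ^ (-(5 / 48 : ℝ)) := by positivity
  calc (2 * (9 * (u : ℝ)) + 1) ^ 2 * (C * (u : ℝ) ^ (-(5 / 48 : ℝ)))
      ≤ (361 * (u : ℝ) ^ 2) * (C * (u : ℝ) ^ (-(5 / 48 : ℝ))) :=
        mul_le_mul_of_nonneg_right h2 h3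
    _ = 361 * C * ((u : ℝ) ^ 2 * (u : ℝ) ^ (-(5 / 48 : ℝ))) := by ring

end Q222.FE
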