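import Pool.Agent.Q222.FE.K0
import Pool.Agent.Q222.FE.YEX
import Pool.Agent.Q222.FE.DIFF
import Pool.Agent.H160R2.SA.Arm

/-!
Project FE (helper78): parts C-K0, C-YEX, F-DIFF, with the sharp one-arm estimate.
-/

set_option autoImplicit false

namespace Q222.FE

open Q78.FE

theorem t_K0 : S_K0 := K0_of Pool.Agent.H160R2.SA.arSharp

theorem t_YEX : S_YEX := YEX_of Pool.Agent.H160R2.SA.arSharp

theorem t_DIFF (hINV : S_INV) (hSYM : S_SYM) (hFOUR : S_FOUR) : S_DIFF :=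
  DIFF.DIFF_of Pool.Agent.H160R2.SA.arSharp hINV hSYM hFOUR

end Q222.FE
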