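import Pool.Agent.Q78.FE.Stm
import Pool.Agent.H160R2.CV.InfMax

/-!
Project FE (helper78), part F-INF: the law of the cluster size in finite volume.
-/

set_option autoImplicit false

namespace Q222.FE.INF

open Finset H974 Pool.Agent.H160R2.CV Pool.Agent.H160R2.CV.Quad Q78.FE MeasureTheory

theorem nv_step {F : Set Edg} {b c : Vtx} (h : Adj F b c) : nv c ≤ nv b + 1 := by
  obtain ⟨⟨x, y, bo⟩, -, hc⟩ := h
  cases bo
  · simp only [src_mk, tgt_false] at hc
    rcases hc with ⟨h1, h2⟩ | ⟨h1, h2⟩
    · rw [← h1, ← h2]; unfold nv; simp only; omega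
    · rw [← h1, ← h2]; unfold nv; simp only; omega
  · simp only [src_mk, tgt_true] at hc
    rcases hc with ⟨h1, h2⟩ | ⟨h1, h2⟩
    · rw [← h1, ← h2]; unfold nv; simp only; omega
    · rw [← h1, ← h2]; unfold nv; simp only; omega

theorem levels {F : Set Edg} {v : Vtx} (h : Reach F (0, 0) v) :
    ∀ j, j ≤ nv v → ∃ w, Reach F (0, 0) w ∧ nv w = j := by
  induction h with
  | refl =>
    intro j hj
    have h0 : nv ((0, 0) : Vtx) = 0 := by simp [nv]
    rw [h0] at hj
    exact ⟨(0, 0), Reach.refl _ _, by omega⟩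
  | @tail b c hb hbc ih =>
    intro j hj
    have h1 := nv_step hbc
    by_cases h2 : j ≤ nv b
    · exact ih j h2
    · exact ⟨c, hb.tail hbc, by omega⟩

theorem nv_lt_card {F : Set Edg} {N : ℕ} (hN : {v : Vtx | Reach F (0, 0) v}.encard = N) {v : Vtx}
    (h : Reach F (0, 0) v) : nv v + 1 ≤ N := by
  have h1 : (↑(Finset.range (nv v + 1)) : Set ℕ) ⊆ nv '' {v : Vtx | Reach F (0, 0) v} := by
    intro j hj
    rw [Finset.mem_coe, Finset.mem_range] at hj
    obtain ⟨w, hw, hwj⟩ := levels h j (by omega)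
    exact ⟨w, hw, hwj⟩
  have h2 := (Set.encard_le_encard h1).trans (Set.encard_image_le _ _)
  rw [hN, Set.encard_coe_eq_coe_finsetCard, Finset.card_range] at h2
  exact_mod_cast h2

theorem mem_bx {n : ℕ} {v : Vtx} : v ∈ bx n ↔ nv v ≤ n := by
  unfold bx nv
  rw [Finset.mem_product, Finset.mem_Icc, Finset.mem_Icc]
  omega

theorem same {F : Set Edg} {N n : ℕ} (hn : N + 1 ≤ n) :
    {v : Vtx | Reach F (0, 0) v}.encard = N ↔
      {v : Vtx | Reach (F ∩ ↑(boxE n)) (0, 0) v}.encard = N := by
  constructor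
  · intro h
    have e : {v : Vtx | Reach (F ∩ ↑(boxE n)) (0, 0) v} = {v : Vtx | Reach F (0, 0) v} := by
      ext v
      constructor
      · intro hv
        exact Reach.mono Set.inter_subset_left hv
      · intro hv
        have hv' : Reach F (0, 0) v := hv
        show Reach (F ∩ ↑(boxE n)) (0, 0) v
        clear hv
        induction hv' with
        | refl => exact Reach.refl _ _
        | @tail b c hb hbc ih =>
          have h1 := nv_lt_card h hb
          have h2 := nv_lt_card h (hb.tail hbc)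
          obtain ⟨e, he, hc⟩ := hbc
          refine ih.trans (Adj.reach ⟨e, ⟨he, ?_⟩, hc⟩)
          rw [Finset.mem_coe, InfMax.mem_boxE]
          rcases hc with ⟨k1, k2⟩ | ⟨k1, k2⟩
          · rw [k1, k2, mem_bx, mem_bx]
            omega
          · rw [k1, k2, mem_bx, mem_bx]
            omega
    rw [e]
    exact h
  · intro h
    have e : {v : Vtx | Reach F (0, 0) v} = {v : Vtx | Reach (F ∩ ↑(boxE n)) (0, 0) v} := by
      ext v
      constructor
      · intro hv
        have hv' : Reach F (0, 0) v := hv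
        show Reach (F ∩ ↑(boxE n)) (0, 0) v
        clear hv
        induction hv' with
        | refl => exact Reach.refl _ _
        | @tail b c hb hbc ih =>
          have h1 := nv_lt_card h ih
          have h2 := nv_step hbc
          obtain ⟨e, he, hc⟩ := hbc
          refine ih.trans (Adj.reach ⟨e, ⟨he, ?_⟩, hc⟩)
          rw [Finset.mem_coe, InfMax.mem_boxE]
          rcases hc with ⟨k1, k2⟩ | ⟨k1, k2⟩
          · rw [k1, k2, mem_bx, mem_bx]
            omega
          · rw [k1, k2, mem_bx, mem_bx]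
            omega
      · intro hv
        exact Reach.mono Set.inter_subset_left hv
    rw [e]
    exact h

theorem Sz_encard (n : ℕ) (F : Finset Edg) :
    {v : Vtx | Reach (↑F ∩ ↑(boxE n)) (0, 0) v}.encard =
      (Sz n (0, 0) (F ∩ boxE n) : ℕ∞) := by
  classical
  have e : {v : Vtx | Reach (↑F ∩ ↑(boxE n)) (0, 0) v} =
      ↑((bx n).filter (fun v => Reach (↑(F ∩ boxE n) : Set Edg) (0, 0) v)) := by
    ext v
    rw [Finset.coe_filter, Finset.coe_inter]
    constructor
    · intro hv
      exact ⟨w_reach_bx (by rw [mem_bx]; simp [nv]) hv, hv⟩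
    · rintro ⟨-, hv⟩
      exact hv
  rw [e, Set.encard_coe_eq_coe_finsetCard]
  unfold Sz
  congr

theorem t_INF : S_INF := by
  intro p N n hn
  unfold pf
  rw [← law_event p (boxE n) (fun F => Sz n (0, 0) F = N)]
  congr 1
  ext ω
  have e1 : (cluster0 ω) = {v : Vtx | Reach (opn ω) (0, 0) v} := by
    ext v
    exact open_reach ω _ _
  have h1 := Sz_encard n (FF (boxE n) ω)
  have e2 : (↑(FF (boxE n) ω) : Set Edg) ∩ ↑(boxE n) = opn ω ∩ ↑(boxE n) := by
    rw [FF_coe, Set.inter_assoc, Set.inter_self]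
  have e3 : FF (boxE n) ω ∩ boxE n = FF (boxE n) ω := by
    rw [Finset.inter_eq_left]
    intro e he
    exact (mem_FF.mp he).1
  rw [e2, e3] at h1
  show (cluster0 ω).encard = N ↔ Sz n (0, 0) (FF (boxE n) ω) = N
  rw [e1, same hn, h1]
  exact Nat.cast_inj

end Q222.FE.INF
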