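import Pool.Agent.Q78.FE.Stm

/-!
Project FE (helper78), part C-K0: closed circuits in thick annuli, from the sharp one-arm
estimate.
-/

set_option autoImplicit false

namespace Q222.FE

open Finset H974 Pool.Agent.H160R2.CV Pool.Agent.H160R2.CV.Quad H362P Q78.FE

theorem K0_of (h : ArSharp) : S_K0 := by
  obtain ⟨c, C, hc, hC, har⟩ := h
  set B : ℝ := 2 ^ 189 * C / c with hB
  have hB0 : 0 < B := by positivity
  obtain ⟨k, hk⟩ := exists_nat_ge (B ^ (48 / 5 : ℝ) * (3 / 2))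
  refine ⟨k + 3, by omega, fun p h0 h1 m hm z S => ?_⟩
  have hm0 : (0 : ℝ) < m := by exact_mod_cast hm
  set n := 2 * (k + 3) * m with hn
  have hmn : 3 * m ≤ n := by
    rw [hn]
    nlinarith
  have s1 : Pr (fun _ => p) S (Cr z m n) ≤ barm (1 / 2) m n := by
    refine le_trans ?_ (pr_Cr S z m n)
    exact Pr_mono_param (okq h0 (by linarith)) Quad.okP (fun _ => h1)
      (fun F G h _ hF => Cr_inc z m n F G h hF)
  refine s1.trans ?_
  have s2 := arm_glue (p := 1 / 2) le_rfl (by norm_num) (r := m) (n := n) (by omega) hmn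
  have s3 := (har (3 * m) (by omega)).1
  have s4 := (har n (by omega)).2
  unfold ar at s3 s4
  have hb : 0 ≤ barm (1 / 2) m n := barm_nonneg (by norm_num) (by norm_num) _ _
  set x : ℝ := ((3 * m : ℕ) : ℝ) ^ (-(5 / 48 : ℝ)) with hx
  set y : ℝ := (n : ℝ) ^ (-(5 / 48 : ℝ)) with hy
  have h3m : (0 : ℝ) < ((3 * m : ℕ) : ℝ) := by push_cast; positivity
  have hn0 : (0 : ℝ) < (n : ℝ) := by
    have : 1 ≤ n := by omega
    exact_mod_cast this
  have hx0 : 0 < x := Real.rpow_pos_of_pos h3m _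
  have hy0 : 0 < y := Real.rpow_pos_of_pos hn0 _
  have key : B * y ≤ x := by
    have e1 : (n : ℝ) = ((2 * (k + 3 : ℝ)) / 3) * ((3 * m : ℕ) : ℝ) := by
      rw [hn]; push_cast; ring
    have hq0 : (0 : ℝ) < (2 * (k + 3 : ℝ)) / 3 := by positivity
    rw [hy, e1, Real.mul_rpow hq0.le h3m.le, ← hx, ← mul_assoc]
    have e2 : B ≤ ((2 * (k + 3 : ℝ)) / 3) ^ (5 / 48 : ℝ) := by
      have e3 : B ^ (48 / 5 : ℝ) ≤ (2 * (k + 3 : ℝ)) / 3 := by linarith
      calc B = (B ^ (48 / 5 : ℝ)) ^ (5 / 48 : ℝ) := by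
            rw [← Real.rpow_mul hB0.le]; norm_num
        _ ≤ _ := Real.rpow_le_rpow (by positivity) e3 (by norm_num)
    have e4 : B * ((2 * (k + 3 : ℝ)) / 3) ^ (-(5 / 48 : ℝ)) ≤ 1 := by
      rw [Real.rpow_neg hq0.le, ← div_eq_mul_inv, div_le_one (by positivity)]
      exact e2
    calc B * ((2 * (k + 3 : ℝ)) / 3) ^ (-(5 / 48 : ℝ)) * x ≤ 1 * x :=
          mul_le_mul_of_nonneg_right e4 hx0.le
      _ = x := one_mul _
  have h188 : (0 : ℝ) < (1 / 2 : ℝ) ^ 188 := by positivity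
  have s5 : (1 / 2 : ℝ) ^ 188 * (c * x * barm (1 / 2) m n) ≤ C * y := by
    refine le_trans ?_ (s2.trans s4)
    exact mul_le_mul_of_nonneg_left (mul_le_mul_of_nonneg_right s3 hb) h188.le
  have s6 : C * y = c * (1 / 2 : ℝ) ^ 189 * (B * y) := by
    rw [hB]
    field_simp
  rw [s6] at s5
  have s7 : (1 / 2 : ℝ) ^ 188 * (c * x * barm (1 / 2) m n) ≤ c * (1 / 2 : ℝ) ^ 189 * x :=
    s5.trans (mul_le_mul_of_nonneg_left key (by positivity))
  have s8 : (1 / 2 : ℝ) ^ 188 * (c * x) * barm (1 / 2) m n ≤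
      (1 / 2 : ℝ) ^ 188 * (c * x) * (1 / 2) := by
    calc (1 / 2 : ℝ) ^ 188 * (c * x) * barm (1 / 2) m n =
        (1 / 2 : ℝ) ^ 188 * (c * x * barm (1 / 2) m n) := by ring
      _ ≤ c * (1 / 2 : ℝ) ^ 189 * x := s7
      _ = _ := by rw [pow_succ]; ring
  exact le_of_mul_le_mul_left s8 (by positivity)

end Q222.FE
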