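import Pool.Agent.Q78.FE.Stm

/-!
Project FE (helper78), part C-ONE: the weight of a linked gadget at the scale of the frequency.
-/

set_option autoImplicit false

namespace Q222.FE.ONE

open Finset H974 Pool.Agent.H160R2.CV Pool.Agent.H160R2.CV.Quad H362P Q78.FE

theorem Ex_resample {E : Type} [DecidableEq E] {p : E → ℝ} {U B : Finset E} (hB : B ⊆ U)
    (h : Finset E → ℝ) :
    Ex p U (fun F => Ex p B (fun G => h ((F \ B) ∪ G))) = Ex p U h := by
  have hd : Disjoint (U \ B) B := Finset.sdiff_disjoint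
  have e : U = (U \ B) ∪ B := (Finset.sdiff_union_of_subset hB).symm
  rw [e, Ex_union hd, Ex_union hd]
  apply Ex_congr
  intro A hA
  have key : ∀ G, G ⊆ B → Ex p B (fun G' => h (((A ∪ G) \ B) ∪ G')) =
      Ex p B (fun G' => h (A ∪ G')) := by
    intro G hG
    have e2 : (A ∪ G) \ B = A := by
      ext x
      rw [Finset.mem_sdiff, Finset.mem_union]
      constructor
      · rintro ⟨h1 | h1, h2⟩
        · exact h1
        · exact absurd (hG h1) h2
      · intro h1
        exact ⟨Or.inl h1, (Finset.mem_sdiff.mp (hA h1)).2⟩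
    rw [e2]
  rw [Ex_congr (g := fun _ => Ex p B (fun G' => h (A ∪ G'))) key, Ex_const]

theorem markov {E : Type} [DecidableEq E] {p : E → ℝ} (hp : Ok p) (S : Finset E)
    {f : Finset E → ℝ} (hf : ∀ F, 0 ≤ f F) {β : ℝ} (hβ : 0 < β) :
    Pr p S (fun F => β < f F) ≤ Ex p S f / β := by
  rw [le_div_iff₀ hβ]
  unfold Pr
  rw [← Ex_mul_right]
  apply Ex_mono hp
  intro F _
  by_cases h : β < f F
  · rw [ind_of h]; linarith
  · rw [ind_not_of h, zero_mul]; exact hf F

theorem bxz_mono (z : Vtx) {m n : ℕ} (h : m ≤ n) : bxz z m ⊆ bxz z n := by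
  intro v hv
  unfold bxz at hv ⊢
  rw [Finset.mem_product, Finset.mem_Icc, Finset.mem_Icc] at hv ⊢
  omega

theorem nv_of_bxz {z v : Vtx} {m : ℕ} (h : v ∈ bxz z m) : nv (v - z) ≤ m := by
  unfold bxz at h
  rw [Finset.mem_product, Finset.mem_Icc, Finset.mem_Icc] at h
  unfold nv
  simp only [Prod.fst_sub, Prod.snd_sub]
  omega

theorem nv_tri (a b c : Vtx) : nv (a - c) ≤ nv (a - b) + nv (b - c) := by
  unfold nv
  simp only [Prod.fst_sub, Prod.snd_sub]
  omega

/-- a counted vertex near the centre gives a crossing inside the block -/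
theorem Cr_of_Hb {z : Vtx} {u m : ℕ} (hm : m ≤ 2 * u) {F0 G : Finset Edg}
    (hF0 : Disjoint F0 (Bl z u)) {v : Vtx} (hv : nv (v - z) ≤ m)
    (h : Hb z u (F0 ∪ G) v) : Cr z m (2 * u) G := by
  obtain ⟨w, ⟨-, v', hv', hr1⟩, hr2⟩ := h
  have r1 : Reach (↑(F0 ∪ G) : Set Edg) v v' :=
    (hr2.mono Set.inter_subset_left).symm.trans (hr1.mono Set.inter_subset_left)
  obtain ⟨w', k1, k2, k3⟩ := first_exit (a := z.1 - ((2 * u : ℕ) : ℤ)) (b := z.1 + ((2 * u : ℕ) : ℤ))
    (c := z.2 - ((2 * u : ℕ) : ℤ)) (d := z.2 + ((2 * u : ℕ) : ℤ))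
    (by
      unfold nv at hv
      simp only [Prod.fst_sub, Prod.snd_sub] at hv
      unfold inR
      push_cast
      omega) r1 (by
      unfold nv at hv'
      simp only [Prod.fst_sub, Prod.snd_sub] at hv'
      push_cast
      omega)
  obtain ⟨u', l1, l2⟩ := last_exit (a := z.1 - (m : ℤ)) (b := z.1 + m) (c := z.2 - m)
    (d := z.2 + m) (by
      unfold nv at hv
      simp only [Prod.fst_sub, Prod.snd_sub] at hv
      unfold inR
      omega) k3
  refine ⟨u', w', l1, k1, k2, l2.mono ?_⟩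
  rintro e ⟨⟨h1, h2⟩, h3⟩
  have h2' : e ∈ Bl z u := by
    unfold Bl bo
    exact_mod_cast h2
  have h1' : e ∈ F0 ∪ G := by exact_mod_cast h1
  rw [Finset.mem_union] at h1'
  refine ⟨?_, ?_⟩
  · rcases h1' with h1' | h1'
    · exact absurd h2' (Finset.disjoint_left.mp hF0 h1')
    · exact_mod_cast h1'
  · rw [Finset.coe_sdiff]
    exact ⟨h2, h3⟩

theorem Yz_nonneg (z : Vtx) (u : ℕ) (F : Finset Edg) : 0 ≤ Yz z u F :=
  Finset.sum_nonneg (fun _ _ => ind_nonneg _)

theorem t_ONE (hGAP : S_GAP) (hLOC : S_LOC) (hYIN : S_YIN) (hYEX : S_YEX) :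
    S_ONE := by
  intro k0 hk0 κ a hκ ha
  obtain ⟨δ, c1, hδ, hc1, hin⟩ := hYIN k0 hk0.1 κ a hκ ha
  obtain ⟨C, hC, hex⟩ := hYEX
  set c := min c1 1 with hc
  have hc0 : 0 < c := lt_min hc1 one_pos
  have hcle : c ≤ 1 := min_le_right _ _
  have hk3 := hk0.1
  have hk0' : (0 : ℝ) < k0 := by
    have : 0 < k0 := by omega
    exact_mod_cast this
  set b : ℝ := δ + 32 * C * (k0 : ℝ) ^ (91 / 48 : ℝ) / c with hb
  have hb1 : 0 < 32 * C * (k0 : ℝ) ^ (91 / 48 : ℝ) / c := by positivity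
  have hb0 : 0 < b := by positivity
  have hδb : δ ≤ b := by linarith
  refine ⟨b, hb0, fun K hK => ?_⟩
  have hK0 : 0 < K := by linarith
  refine ⟨11 / 48 * (δ / (K * b)) ^ 2 * (c / 16), by positivity, ?_, ?_⟩
  · have h1 : δ / (K * b) ≤ 1 := by
      rw [div_le_one (by positivity)]
      nlinarith
    have h2 : (δ / (K * b)) ^ 2 ≤ 1 := pow_le_one₀ (by positivity) h1
    have h3 : 11 / 48 * (δ / (K * b)) ^ 2 ≤ 1 := by linarith
    calc 11 / 48 * (δ / (K * b)) ^ 2 * (c / 16) ≤ 1 * 1 :=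
          mul_le_mul h3 (by linarith) (by positivity) (by norm_num)
      _ = 1 := by norm_num
  intro p θ m hm hNW hθ1 hθ2 z
  have hp0 : 0 ≤ p := by linarith [hNW.lo]
  have hp1 : p ≤ 1 / 2 := hNW.hi
  have hok : Ok (fun _ : Edg => p) := okq hp0 (by linarith)
  have hm0 : (0 : ℝ) < m := by exact_mod_cast hm
  set M : ℝ := (m : ℝ) ^ (91 / 48 : ℝ) with hM
  have hM0 : 0 < M := Real.rpow_pos_of_pos hm0 _
  set u := k0 * m with hu
  have hu1 : 1 ≤ u := Nat.mul_pos (by omega) (by omega)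
  have hmu : m ≤ u := Nat.le_mul_of_pos_left m (by omega)
  set U := bo z (90 * u) with hU
  set B := Bl z u with hB
  have hBU : B ⊆ U := by
    rw [hB, hU]
    unfold Bl bo
    apply RE_subset <;> push_cast <;> omega
  have hθ0 : 0 < θ := by
    by_contra hcon
    push Not at hcon
    have : K * (θ * (b * M)) ≤ 0 := by
      have h1 : θ * (b * M) ≤ 0 := mul_nonpos_of_nonpos_of_nonneg hcon (by positivity)
      exact mul_nonpos_of_nonneg_of_nonpos hK0.le h1
    linarith
  set A : ℝ := 11 / 48 * (θ * (δ * M)) ^ 2 with hA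
  have hA0 : 0 ≤ A := by positivity
  set L : Finset Edg → Prop := fun F => Gd z u F ∧ Lk z u F with hL
  set g1 : Finset Edg → ℝ := fun F =>
    Pr (fun _ => p) B (fun G => δ * M ≤ Yi z u m ((F \ B) ∪ G)) with hg1
  set g2 : Finset Edg → ℝ := fun F =>
    Pr (fun _ => p) B (fun G => b * M < Yz z u ((F \ B) ∪ G)) with hg2
  have g2nn : ∀ F, 0 ≤ g2 F := fun F => Pr_nonneg hok _ _
  -- the bound for one configuration outside the block
  have hwt : ∀ F : Finset Edg, wt p θ z u F ≤ 1 - A * (1 / 8 * g1 F - 2 * g2 F) := by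
    intro F
    set F0 := F \ B with hF0
    have hdF : Disjoint F0 (Bl z u) := Finset.sdiff_disjoint
    set yi : Finset Edg → ℝ := fun G => Yi z u m (F0 ∪ G) with hyi
    set yo : Finset Edg → ℝ := fun G =>
      ∑ v ∈ bxz z (9 * u) \ bxz z m, ind (Hb z u (F0 ∪ G) v) with hyo
    have hsum : ∀ G, yi G + yo G = Yz z u (F0 ∪ G) := by
      intro G
      rw [hyi, hyo]
      unfold Yi Yz
      rw [add_comm]
      exact Finset.sum_sdiff (bxz_mono z (by omega))
    have hmono : ∀ G G' : Finset Edg, G ⊆ G' → ∀ v, Hb z u (F0 ∪ G) v → Hb z u (F0 ∪ G') v := by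
      intro G G' hGG v hv
      exact (((hLOC z u hu1 (F0 ∪ G) (F0 ∪ G')).2.2.2
        (Finset.union_subset_union_right hGG)).2.2.2 v) hv
    have h1 := hGAP (fun _ : Edg => p) hok B yi yo
      (fun G G' hGG _ => Finset.sum_le_sum (fun v _ => ind_mono (hmono G G' hGG v)))
      (fun G G' hGG _ => Finset.sum_le_sum (fun v _ => ind_mono (hmono G G' hGG v)))
      (fun G _ => Finset.sum_nonneg (fun _ _ => ind_nonneg _))
      (fun G _ => Finset.sum_nonneg (fun _ _ => ind_nonneg _))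
      (fun G => ¬ Cr z m (2 * u) G)
      (by
        intro G G' hGG _ hG
        simp only [not_not] at hG ⊢
        exact Cr_inc z m (2 * u) G G' hGG hG)
      (by
        intro G hG hQ
        apply Finset.sum_eq_zero
        intro v hv
        apply ind_not_of
        intro hHb
        exact hQ (Cr_of_Hb (by omega) hdF (nv_of_bxz hv) hHb))
      (δ * M) (b * M) θ (by positivity) (by positivity) hθ0.le hθ2
      (mul_le_mul_of_nonneg_right hδb hM0.le)
    have e1 : wt p θ z u F = ‖CEx (fun _ => p) B (fun G => ei (θ * (yi G + yo G)))‖ := by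
      unfold wt
      have : (fun G => ei (θ * Yz z u ((F \ Bl z u) ∪ G))) = fun G => ei (θ * (yi G + yo G)) := by
        funext G
        rw [hsum]
      rw [this]
    have e2 : Pr (fun _ => p) B (fun G => b * M < yi G + yo G) = g2 F := by
      rw [hg2]
      apply Pr_congr
      intro G _
      rw [hsum]
    have e3 : (1 : ℝ) / 2 ≤ Pr (fun _ => p) B (fun G => ¬ Cr z m (2 * u) G) := by
      rw [Pr_not]
      have h2 := hk0.2 p hp0 hp1 m hm z B
      have e4 : 2 * k0 * m = 2 * u := by rw [hu]; ring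
      rw [e4] at h2
      linarith
    have hg1nn : 0 ≤ g1 F := Pr_nonneg hok _ _
    have e5 : Pr (fun _ => p) B (fun G => δ * M ≤ yi G) = g1 F := rfl
    rw [e1]
    refine h1.trans ?_
    rw [e2, e5, hA]
    have h3 : 1 / 8 * g1 F ≤ 1 / 4 * Pr (fun _ => p) B (fun G => ¬ Cr z m (2 * u) G) * g1 F := by
      apply mul_le_mul_of_nonneg_right _ hg1nn
      linarith
    have h4 : 11 / 48 * (θ * (δ * M)) ^ 2 * (1 / 8 * g1 F - 2 * g2 F) ≤
        11 / 48 * (θ * (δ * M)) ^ 2 *
          (1 / 4 * Pr (fun _ => p) B (fun G => ¬ Cr z m (2 * u) G) * g1 F - 2 * g2 F) :=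
      mul_le_mul_of_nonneg_left (by linarith) hA0
    linarith
  -- the event does not depend on the block
  have hLB : ∀ F G : Finset Edg, G ⊆ B → (L F ↔ L ((F \ B) ∪ G)) := by
    intro F G hG
    have key : ∀ T : Finset Edg, Disjoint T B → F ∩ T = ((F \ B) ∪ G) ∩ T := by
      intro T hT
      ext e
      rw [Finset.mem_inter, Finset.mem_inter, Finset.mem_union, Finset.mem_sdiff]
      constructor
      · rintro ⟨h1, h2⟩
        exact ⟨Or.inl ⟨h1, Finset.disjoint_left.mp hT h2⟩, h2⟩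
      · rintro ⟨h1 | h1, h2⟩
        · exact ⟨h1.1, h2⟩
        · exact absurd (hG h1) (Finset.disjoint_left.mp hT h2)
    obtain ⟨l1, l2, -, -⟩ := hLOC z u hu1 F ((F \ B) ∪ G)
    have k1 := (l1 (key (An z u) Finset.sdiff_disjoint)).1
    have k2 := l2 (key (bo z (90 * u) \ bo z (2 * u)) Finset.sdiff_disjoint)
    rw [hL]
    simp only
    rw [k1, k2]
  have hWW : ∀ F : Finset Edg, Q78.FE.WW p θ z u F ≤
      1 - A * (1 / 8 * (ind (L F) * g1 F) - 2 * g2 F) := by
    intro F
    unfold Q78.FE.WW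
    by_cases h : Gd z u F ∧ Lk z u F
    · rw [if_pos h]
      have e : ind (L F) = 1 := ind_of h
      rw [e, one_mul]
      exact hwt F
    · rw [if_neg h]
      have e : ind (L F) = 0 := ind_not_of h
      rw [e, zero_mul, mul_zero, zero_sub]
      have := mul_nonneg hA0 (mul_nonneg (by norm_num : (0 : ℝ) ≤ 2) (g2nn F))
      linarith
  have s1 : Ex (fun _ => p) U (fun F => ind (L F) * g1 F) =
      Pr (fun _ => p) U (fun F => L F ∧ δ * M ≤ Yi z u m F) := by
    unfold Pr
    rw [← Ex_resample hBU (fun F => ind (L F ∧ δ * M ≤ Yi z u m F))]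
    apply Ex_congr
    intro F _
    rw [hg1]
    simp only
    unfold Pr
    rw [← Ex_mul_left]
    apply Ex_congr
    intro G hG
    have e9 : ind (L F) = ind (L ((F \ B) ∪ G)) := ind_congr (hLB F G hG)
    calc ind (L F) * ind (δ * M ≤ Yi z u m ((F \ B) ∪ G))
        = ind (L ((F \ B) ∪ G)) * ind (δ * M ≤ Yi z u m ((F \ B) ∪ G)) := by rw [e9]
      _ = _ := (ind_and _ _).symm
  have s2 : Ex (fun _ => p) U g2 = Pr (fun _ => p) U (fun F => b * M < Yz z u F) := by
    unfold Pr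
    rw [← Ex_resample hBU (fun F => ind (b * M < Yz z u F))]
    rfl
  have s3 : c ≤ Ex (fun _ => p) U (fun F => ind (L F) * g1 F) := by
    rw [s1]
    refine (min_le_left _ _).trans ((hin p m hm hNW z U (Finset.Subset.refl _)).trans ?_)
    apply le_of_eq
    apply Pr_congr
    intro F _
    rw [hL]
    simp only
    tauto
  have s4 : 2 * Ex (fun _ => p) U g2 ≤ c / 16 := by
    rw [s2]
    have h1 := markov hok U (f := Yz z u) (fun F => Yz_nonneg z u F) (β := b * M) (by positivity)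
    have h2 := hex p hp0 hp1 u hu1 z U
    have e : (u : ℝ) ^ (91 / 48 : ℝ) = (k0 : ℝ) ^ (91 / 48 : ℝ) * M := by
      rw [hu]
      push_cast
      rw [Real.mul_rpow hk0'.le hm0.le]
    have h3 : Ex (fun _ => p) U (Yz z u) / (b * M) ≤ c / 32 := by
      rw [div_le_iff₀ (by positivity)]
      refine h2.trans ?_
      rw [e]
      have h4 : C * (k0 : ℝ) ^ (91 / 48 : ℝ) ≤ c / 32 * b := by
        have h5 : 32 * C * (k0 : ℝ) ^ (91 / 48 : ℝ) / c ≤ b := by linarith
        rw [div_le_iff₀ hc0] at h5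
        linarith
      calc C * ((k0 : ℝ) ^ (91 / 48 : ℝ) * M) = C * (k0 : ℝ) ^ (91 / 48 : ℝ) * M := by ring
        _ ≤ c / 32 * b * M := mul_le_mul_of_nonneg_right h4 hM0.le
        _ = c / 32 * (b * M) := by ring
    linarith
  have s5 : Ex (fun _ => p) U (Q78.FE.WW p θ z u) ≤
      1 - A * (1 / 8 * Ex (fun _ => p) U (fun F => ind (L F) * g1 F) -
        2 * Ex (fun _ => p) U g2) := by
    refine (Ex_mono hok (fun F _ => hWW F)).trans (le_of_eq ?_)
    rw [Ex_sub, Ex_const, Ex_mul_left, Ex_sub, Ex_mul_left, Ex_mul_left]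
  refine s5.trans ?_
  have s6 : A * (c / 16) ≤ A * (1 / 8 * Ex (fun _ => p) U (fun F => ind (L F) * g1 F) -
      2 * Ex (fun _ => p) U g2) :=
    mul_le_mul_of_nonneg_left (by linarith) hA0
  have s7 : 11 / 48 * (δ / (K * b)) ^ 2 ≤ A := by
    rw [hA]
    apply mul_le_mul_of_nonneg_left _ (by norm_num)
    apply pow_le_pow_left₀ (by positivity)
    rw [div_le_iff₀ (by positivity)]
    calc δ = δ * 1 := (mul_one δ).symm
      _ ≤ δ * (K * (θ * (b * M))) := mul_le_mul_of_nonneg_left hθ1 hδ.le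
      _ = θ * (δ * M) * (K * b) := by ring
  have s8 : 11 / 48 * (δ / (K * b)) ^ 2 * (c / 16) ≤ A * (c / 16) :=
    mul_le_mul_of_nonneg_right s7 (by positivity)
  linarith

end Q222.FE.ONE
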