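import Pool.Agent.Q78.FE.Stm

/-!
Project FE (helper78), part B-SYM: the symmetries of the square.
-/

set_option autoImplicit false

namespace Q222.FE

open Finset H974 Pool.Agent.H160R2.CV Q78.FE

/-- the sides of the square -/
def side (R : ℕ) (i : Fin 4) (v : Vtx) : Prop :=
  match i with
    | 0 => v.1 = (R : ℤ)
    | 1 => v.1 = -(R : ℤ)
    | 2 => v.2 = (R : ℤ)
    | 3 => v.2 = -(R : ℤ)

theorem fl_iff (R : ℕ) (o : Vtx) (i : Fin 4) (F : Finset Edg) :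
    fl R o i F ↔ ∃ v : Vtx, side R i v ∧ Reach (↑F ∩ ↑(boxE R)) o v := Iff.rfl

/-- a symmetry of the square -/
structure SqS (g : LSym) (σ : Equiv.Perm (Fin 4)) : Prop where
  box : ∀ m, g.mp (boxE m) = boxE m
  fix : g.ψ (0, 0) = (0, 0)
  bxm : ∀ (m : ℕ) (v : Vtx), g.ψ v ∈ bx m ↔ v ∈ bx m
  sid : ∀ (R : ℕ) (i : Fin 4) (v : Vtx), side R i (g.ψ v) ↔ side R (σ i) v

theorem mem_bx {n : ℕ} {v : Vtx} : v ∈ bx n ↔
    (-(n : ℤ) ≤ v.1 ∧ v.1 ≤ n) ∧ (-(n : ℤ) ≤ v.2 ∧ v.2 ≤ n) := by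
  simp [bx, Finset.mem_product, Finset.mem_Icc]

theorem rfx_box (m : ℕ) : (rfx 0).mp (boxE m) = boxE m := by
  unfold boxE; rw [rfx_RE]; congr 1 <;> ring

theorem rfy_box (m : ℕ) : (rfy 0).mp (boxE m) = boxE m := by
  unfold boxE; rw [rfy_RE]; congr 1 <;> ring

theorem tps_box (m : ℕ) : tps.mp (boxE m) = boxE m := by
  unfold boxE; rw [tps_RE]

theorem sq_rfx : SqS (rfx 0) (Equiv.swap 0 1) where
  box := rfx_box
  fix := by simp
  bxm := by
    rintro m ⟨x, y⟩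
    rw [mem_bx, mem_bx, rfx_ψ]
    simp only
    omega
  sid := by
    rintro R i ⟨x, y⟩
    rw [rfx_ψ]
    fin_cases i
    · show (0 - x = (R : ℤ)) ↔ (x = -(R : ℤ))
      omega
    · show (0 - x = -(R : ℤ)) ↔ (x = (R : ℤ))
      omega
    · show (y = (R : ℤ)) ↔ (y = (R : ℤ))
      exact Iff.rfl
    · show (y = -(R : ℤ)) ↔ (y = -(R : ℤ))
      exact Iff.rfl

theorem sq_rfy : SqS (rfy 0) (Equiv.swap 2 3) where
  box := rfy_box
  fix := by simp
  bxm := by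
    rintro m ⟨x, y⟩
    rw [mem_bx, mem_bx, rfy_ψ]
    simp only
    omega
  sid := by
    rintro R i ⟨x, y⟩
    rw [rfy_ψ]
    fin_cases i
    · show (x = (R : ℤ)) ↔ (x = (R : ℤ))
      exact Iff.rfl
    · show (x = -(R : ℤ)) ↔ (x = -(R : ℤ))
      exact Iff.rfl
    · show (0 - y = (R : ℤ)) ↔ (y = -(R : ℤ))
      omega
    · show (0 - y = -(R : ℤ)) ↔ (y = (R : ℤ))
      omega

theorem sq_tps : SqS tps (Equiv.swap 0 2 * Equiv.swap 1 3) where
  box := tps_box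
  fix := by simp
  bxm := by
    rintro m ⟨x, y⟩
    rw [mem_bx, mem_bx, tps_ψ]
    simp only
    tauto
  sid := by
    rintro R i ⟨x, y⟩
    rw [tps_ψ]
    fin_cases i
    · show (y = (R : ℤ)) ↔ (y = (R : ℤ))
      exact Iff.rfl
    · show (y = -(R : ℤ)) ↔ (y = -(R : ℤ))
      exact Iff.rfl
    · show (x = (R : ℤ)) ↔ (x = (R : ℤ))
      exact Iff.rfl
    · show (x = -(R : ℤ)) ↔ (x = -(R : ℤ))
      exact Iff.rfl

theorem SqS.ex {g : LSym} {σ : Equiv.Perm (Fin 4)} (h : SqS g σ) (p : ℝ) (n : ℕ)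
    (f : Finset Edg → ℝ) :
    Ex (fun _ => p) (boxE n) f = Ex (fun _ => p) (boxE n) (fun F => f (g.mp F)) := by
  have h1 := Ex_map (fun _ : Edg => p) g.φ.toEmbedding (boxE n) f
  have h2 : (boxE n).map g.φ.toEmbedding = boxE n := h.box n
  rw [h2] at h1
  exact h1

theorem SqS.sz {g : LSym} {σ : Equiv.Perm (Fin 4)} (h : SqS g σ) (n : ℕ) (F : Finset Edg) :
    Sz n (0, 0) (g.mp F) = Sz n (0, 0) F := by
  classical
  unfold Sz
  symm
  refine Finset.card_bij (fun v _ => g.ψ v) ?_ ?_ ?_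
  · intro v hv
    rw [Finset.mem_filter] at hv ⊢
    refine ⟨(h.bxm n v).mpr hv.1, ?_⟩
    have h1 := g.reach hv.2
    rw [h.fix, ← LSym.coe_mp] at h1
    exact h1
  · intro v _ w _ hvw
    exact g.ψ.injective hvw
  · intro w hw
    rw [Finset.mem_filter] at hw
    refine ⟨g.ψ.symm w, ?_, by simp⟩
    rw [Finset.mem_filter]
    constructor
    · rw [← h.bxm n]; simpa using hw.1
    · rw [← g.reach_iff, h.fix, ← LSym.coe_mp, Equiv.apply_symm_apply]
      exact hw.2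

theorem SqS.flg {g : LSym} {σ : Equiv.Perm (Fin 4)} (h : SqS g σ) (R : ℕ) (i : Fin 4)
    (F : Finset Edg) : fl R (0, 0) i (g.mp F) ↔ fl R (0, 0) (σ i) F := by
  rw [fl_iff, fl_iff]
  have himg : g.φ '' ((↑F : Set Edg) ∩ ↑(boxE R)) = ↑(g.mp F) ∩ ↑(boxE R) := by
    rw [Set.image_inter g.φ.injective, LSym.coe_mp]
    congr 1
    rw [← LSym.coe_mp, h.box]
  constructor
  · rintro ⟨v, hv, hr⟩
    refine ⟨g.ψ.symm v, ?_, ?_⟩
    · rw [← h.sid]; simpa using hv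
    · rw [← g.reach_iff, h.fix, himg, Equiv.apply_symm_apply]
      exact hr
  · rintro ⟨v, hv, hr⟩
    refine ⟨g.ψ v, (h.sid R i v).mpr hv, ?_⟩
    have h1 := g.reach hr
    rw [h.fix, himg] at h1
    exact h1

theorem SqS.nflg {g : LSym} {σ : Equiv.Perm (Fin 4)} (h : SqS g σ) (R : ℕ)
    (F : Finset Edg) : nfl R (0, 0) (g.mp F) = nfl R (0, 0) F := by
  unfold nfl
  rw [← Equiv.sum_comp σ (fun i => ind (fl R (0, 0) i F))]
  exact Finset.sum_congr rfl (fun i _ => ind_congr (h.flg R i F))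

/-- the contribution of a side -/
noncomputable def ctr (p : ℝ) (n R k : ℕ) (i : Fin 4) : ℝ :=
  Ex (fun _ => p) (boxE n) (fun F => ind (fl R (0, 0) i F) / nfl R (0, 0) F *
    ind (Sz n (0, 0) F = k))

theorem SqS.ctr_eq {g : LSym} {σ : Equiv.Perm (Fin 4)} (h : SqS g σ) (p : ℝ) (n R k : ℕ)
    (i : Fin 4) : ctr p n R k i = ctr p n R k (σ i) := by
  unfold ctr
  rw [h.ex p n]
  apply Ex_congr
  intro F _
  rw [h.nflg, h.sz, ind_congr (h.flg R i F)]

theorem nfl_pos {R : ℕ} {o : Vtx} {i : Fin 4} {F : Finset Edg} (h : fl R o i F) :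
    1 ≤ nfl R o F := by
  unfold nfl
  rw [← ind_of h]
  exact Finset.single_le_sum (f := fun i => ind (fl R o i F)) (fun j _ => ind_nonneg _)
    (Finset.mem_univ i)

theorem sum_sides (n R k : ℕ) (F : Finset Edg) :
    ind (Sz n (0, 0) F = k ∧ ∃ i, fl R (0, 0) i F) =
      ∑ i : Fin 4, ind (fl R (0, 0) i F) / nfl R (0, 0) F * ind (Sz n (0, 0) F = k) := by
  rw [← Finset.sum_mul, ← Finset.sum_div]
  by_cases h : ∃ i, fl R (0, 0) i F
  · obtain ⟨i, hi⟩ := h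
    have h1 := nfl_pos hi
    have h2 : (∑ i : Fin 4, ind (fl R (0, 0) i F)) / nfl R (0, 0) F = 1 := by
      unfold nfl at h1 ⊢
      exact div_self (by linarith)
    rw [h2, one_mul]
    exact ind_congr ⟨fun h3 => h3.1, fun h3 => ⟨h3, i, hi⟩⟩
  · have h1 : (∑ i : Fin 4, ind (fl R (0, 0) i F)) = 0 :=
      Finset.sum_eq_zero (fun i _ => ind_not_of (fun h2 => h ⟨i, h2⟩))
    rw [h1, zero_div, zero_mul]
    exact ind_not_of (fun h2 => h h2.2)

theorem t_SYM : S_SYM := by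
  intro p n R k _
  have h1 : Pr (fun _ => p) (boxE n) (fun F => Sz n (0, 0) F = k ∧ ∃ i, fl R (0, 0) i F) =
      ∑ i : Fin 4, ctr p n R k i := by
    unfold Pr ctr
    rw [← Ex_sum]
    exact Ex_congr (fun F _ => sum_sides n R k F)
  have e1 : ctr p n R k 1 = ctr p n R k 0 := by
    rw [sq_rfx.ctr_eq p n R k 0, Equiv.swap_apply_left]
  have e2 : ctr p n R k 2 = ctr p n R k 0 := by
    rw [sq_tps.ctr_eq p n R k 0]
    congr 1
  have e3 : ctr p n R k 3 = ctr p n R k 2 := by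
    rw [sq_rfy.ctr_eq p n R k 2, Equiv.swap_apply_left]
  have e4 : ctr p n R k 0 =
      Ex (fun _ => p) (boxE n) (fun F => gg R (0, 0) F * ind (Sz n (0, 0) F = k)) := rfl
  rw [h1, Fin.sum_univ_four, e3, e2, e1, ← e4]
  ring

end Q222.FE
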