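import Pool.Agent.Q78.FE.Stm
import Pool.Agent.Q291.CS.Fin

/-!
Project FE (helper78), parts F-TAIL and F-TL: clusters in a box are rarely large, and the tail of
the cluster size in finite volume.
-/

set_option autoImplicit false

namespace Q222.FE.TAIL

open Finset H974 Pool.Agent.H160R2.CV Pool.Agent.H160R2.CV.Quad Q78.FE MeasureTheory

theorem Vol_of_Sz {n : ℕ} {F : Finset Edg} {x : ℝ} (h : x ≤ (Sz n (0, 0) F : ℝ)) :
    Vol x ↑F := by
  classical
  refine ⟨(bx n).filter (fun v => Reach (↑F) (0, 0) v), ?_, fun u hu => (Finset.mem_filter.mp hu).2⟩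
  refine h.trans (le_of_eq ?_)
  unfold Sz
  congr

theorem far_fl {R : ℕ} {F : Finset Edg} {w : Vtx} (h : Reach (↑F) (0, 0) w) (hw : R ≤ nv w) :
    ∃ i, fl R (0, 0) i F := by
  have hw' : w.1 ≤ -(R : ℤ) ∨ (R : ℤ) ≤ w.1 ∨ w.2 ≤ -(R : ℤ) ∨ (R : ℤ) ≤ w.2 := by
    unfold nv at hw
    omega
  obtain ⟨v, -, k2, k3⟩ := first_exit (a := -(R : ℤ)) (b := R) (c := -(R : ℤ)) (d := R)
    (u := (0, 0)) (by unfold inR; simp) h hw'
  rcases k2 with k2 | k2 | k2 | k2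
  · exact ⟨1, v, k2, k3⟩
  · exact ⟨0, v, k2, k3⟩
  · exact ⟨3, v, k2, k3⟩
  · exact ⟨2, v, k2, k3⟩

theorem t_TAIL : S_TAIL := by
  obtain ⟨A, c, hA, hc, h⟩ := Q291.CS.short_crit
  refine ⟨c, A, hc, hA, fun p s n hp0 hp1 hs hn x hx => ?_⟩
  have hok : Ok (fun _ : Edg => p) := okq hp0 (by linarith)
  have hs0 : (0 : ℝ) < s := by exact_mod_cast hs
  have hM0 : 0 < (s : ℝ) ^ (91 / 48 : ℝ) := by positivity
  set V : Finset Edg → Prop := fun F => Vol x (↑F : Set Edg) with hV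
  have hVi : ∀ F G : Finset Edg, F ⊆ G → V F → V G := fun F G hFG hF => Q291.CS.Vol_inc x F G hFG hF
  have s1 : Pr (fun _ => p) (boxE n)
      (fun F => x ≤ (Sz n (0, 0) F : ℝ) ∧ ¬ ∃ i, fl (8 * s) (0, 0) i F) ≤
      Pr (fun _ => p) (boxE n) (fun F => V (F ∩ boxE (8 * s))) := by
    apply Pr_mono hok
    rintro F _ ⟨h1, h2⟩
    obtain ⟨T, hT, hr⟩ := Vol_of_Sz h1
    refine ⟨T, hT, fun u hu => ?_⟩
    apply Q291.CS.stay _ (hr u hu)
    intro w hw
    by_contra hc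
    push Not at hc
    exact h2 (far_fl hw hc.le)
  have s2 : Pr (fun _ => p) (boxE n) (fun F => V (F ∩ boxE (8 * s))) =
      Pr (fun _ => p) (boxE (8 * s)) V := by
    have h1 : Pr (fun _ => p) (boxE n) (fun F => V (F ∩ boxE (8 * s))) =
        Pr (fun _ => p) (boxE (8 * s)) (fun F => V (F ∩ boxE (8 * s))) := by
      apply Pr_local (boxE_mono hn)
      intro F _
      rw [Finset.inter_assoc, Finset.inter_self]
    rw [h1]
    apply Pr_congr
    intro F hF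
    rw [Finset.inter_eq_left.mpr hF]
  have s3 : Pr (fun _ => p) (boxE (8 * s)) V ≤ Pr (fun _ => p) (boxE (33 * s)) V :=
    Pr_mono_set hok (boxE_mono (by omega)) (fun F G hFG _ hF => hVi F G hFG hF)
  have s4 : Pr (fun _ => p) (boxE (33 * s)) V ≤ Pr P (boxE (33 * s)) V :=
    Pr_mono_param hok Quad.okP (fun _ => hp1) (fun F G hFG _ hF => hVi F G hFG hF)
  have s5 := h s hs (c / (s : ℝ) ^ (91 / 48 : ℝ)) (by positivity)
    (by rw [div_mul_cancel₀ _ hM0.ne']) x hx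
  rw [s2] at s1
  refine s1.trans (s3.trans (s4.trans (s5.trans (le_of_eq ?_))))
  have e : c / (s : ℝ) ^ (91 / 48 : ℝ) * x = c * (x / (s : ℝ) ^ (91 / 48 : ℝ)) := by ring
  rw [e]

theorem t_TL : S_TL := by
  obtain ⟨c, C, hc, hC, h⟩ := Q291.CS.upper
  refine ⟨c, C, hc, hC, fun p n hp0 hp1 y hy => ?_⟩
  have hok : Ok (fun _ : Edg => p) := okq hp0 (by linarith)
  set N := ⌈y⌉₊ with hN
  have hyN : y ≤ N := Nat.le_ceil y
  have hN1 : 1 ≤ N := by
    have : (1 : ℝ) ≤ N := hy.trans hyN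
    exact_mod_cast this
  set P1 : unitInterval := ⟨p, hp0, by linarith⟩ with hP1
  have s1 : Pr (fun _ => p) (boxE n) (fun F => y ≤ (Sz n (0, 0) F : ℝ)) ≤
      Pr (fun _ => (P1 : ℝ)) (boxE n) (fun F => Vol (N : ℝ) ↑F) := by
    apply Pr_mono hok
    intro F _ hF
    apply Vol_of_Sz (n := n)
    have h1 : N ≤ Sz n (0, 0) F := Nat.ceil_le.mpr hF
    exact_mod_cast h1
  have s2 := Q291.CS.vol_ge P1 N le_rfl n
  have s3 := h P1 hp1 N hN1
  refine s1.trans (s2.trans (s3.trans ?_))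
  have hy0 : 0 < y := by linarith
  have ht : 0 ≤ (1 / 2 - p) ^ (91 / 36 : ℝ) := Real.rpow_nonneg (by linarith) _
  apply mul_le_mul
  · apply mul_le_mul_of_nonneg_left _ hC.le
    exact Real.rpow_le_rpow_of_nonpos hy0 hyN (by norm_num)
  · apply Real.exp_le_exp.mpr
    apply neg_le_neg
    exact mul_le_mul_of_nonneg_left (mul_le_mul_of_nonneg_right hyN ht) hc.le
  · exact (Real.exp_pos _).le
  · positivity

end Q222.FE.TAIL
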